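import Pool.Agent.E8helper5.PetFin

/-!
MP_3c540c_co, Q1, for all odd `k`: a graph with property `P_k` contains no subdivision of the Petersen
graph. By the theorem of Alspach, Goddyn and Zhang (not used here) the converse holds as well, also for
graphs with bridges, since admissible weights vanish on bridges; so for every odd `k` the graphs with
property `P_k` are exactly those without a subdivision of the Petersen graph, that is, those with
property `P_1`.

The definitions are in `Pool/Agent/E8helper5/PetDefs.lean`: `MGraph V E` (loopless multigraphs),
`MGraph.deg`, `MGraph.IsCircuit`, `MGraph.cut`, `MGraph.Admissible`, `MGraph.Eulerian`,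
`MGraph.FaithfulCover`, `MGraph.PropertyP` and `PetersenSubdivision`.
-/

set_option autoImplicit false

namespace Pool.Agent.Results.MP_3c540c_co.OddMultiplesH5

open Pool.Agent.E8helper5.Pet

/-- The Petersen graph as a multigraph. -/
def petersen : MGraph PV PE where
  ends e := s(src e, tgt e)
  loopless := by decide

/-- Sanity check: the Petersen graph contains a subdivision of the Petersen graph, itself. -/
def trivialSubdivision : PetersenSubdivision petersen where
  branch p := p
  len _ := 1
  vert e i := if i = 0 then src e else tgt e
  edge e _ := e
  branch_inj := fun _ _ h => h
  len_pos _ := one_pos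
  start _ := rfl
  stop _ := rfl
  link e i hi := by
    obtain rfl : i = 0 := by omega
    rfl
  inj e i j hi hj h := by
    have h1 : i = 0 ∨ i = 1 := by omega
    have h2 : j = 0 ∨ j = 1 := by omega
    rcases h1 with rfl | rfl <;> rcases h2 with rfl | rfl
    · rfl
    · exact absurd h (src_ne_tgt e)
    · exact absurd h.symm (src_ne_tgt e)
    · rfl
  inner_branch e i p h0 h1 := by omega
  inner_disj e e' i j _ h0 h1 := by omega

/-- Let `k` be odd and let `G` be a finite multigraph such that `(G, w)` has a faithful circuit cover
for all admissible eulerian weights `w` whose values are multiples of `k`. Then `G` contains no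
subdivision of the Petersen graph. -/
theorem result (k : ℕ) (hk : Odd k) (V E : Type) [Fintype V] [DecidableEq V] [Fintype E]
    [DecidableEq E] (G : MGraph V E) (h : G.PropertyP k) : IsEmpty (PetersenSubdivision G) :=
  ⟨fun S => S.not_propertyP hk h⟩

end Pool.Agent.Results.MP_3c540c_co.OddMultiplesH5
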